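import Pool.Agent.J4H48.HN.Stm

set_option autoImplicit false

open Polynomial

namespace Pool.Agent.J4H93.HN

open Pool.Agent.J4H48.HN

theorem norm_prod_le_pow {ι : Type*} (s : Finset ι) (a : ι → ℂ) (Q : ℝ)
    (ha : ∀ j ∈ s, ‖a j‖ ≤ Q) : ‖∏ j ∈ s, a j‖ ≤ Q ^ s.card := by
  rw [norm_prod]
  calc ∏ j ∈ s, ‖a j‖ ≤ ∏ _j ∈ s, Q :=
        Finset.prod_le_prod (fun _ _ => norm_nonneg _) ha
    _ = Q ^ s.card := Finset.prod_const _

theorem prod_sub_le {ι : Type*} (s : Finset ι) (a b : ι → ℂ) (Δ Q : ℝ) (hQ : 0 ≤ Q)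
    (h : ∀ j ∈ s, ‖a j - b j‖ ≤ Δ) (ha : ∀ j ∈ s, ‖a j‖ ≤ Q) (hb : ∀ j ∈ s, ‖b j‖ ≤ Q) :
    ‖∏ j ∈ s, a j - ∏ j ∈ s, b j‖ * Q ≤ s.card * Δ * Q ^ s.card := by
  classical
  induction s using Finset.induction_on with
  | empty => simp
  | insert x s hx ih =>
    rw [Finset.prod_insert hx, Finset.prod_insert hx, Finset.card_insert_of_notMem hx]
    have ih' := ih (fun j hj => h j (Finset.mem_insert_of_mem hj))
      (fun j hj => ha j (Finset.mem_insert_of_mem hj))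
      (fun j hj => hb j (Finset.mem_insert_of_mem hj))
    have hA := norm_prod_le_pow s a Q (fun j hj => ha j (Finset.mem_insert_of_mem hj))
    have hx1 := h x (Finset.mem_insert_self x s)
    have hx2 := hb x (Finset.mem_insert_self x s)
    have hQn : 0 ≤ Q ^ s.card := pow_nonneg hQ _
    have e1 : a x * ∏ j ∈ s, a j - b x * ∏ j ∈ s, b j =
        (a x - b x) * ∏ j ∈ s, a j + b x * (∏ j ∈ s, a j - ∏ j ∈ s, b j) := by ring
    have e2 : ‖a x * ∏ j ∈ s, a j - b x * ∏ j ∈ s, b j‖ ≤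
        Δ * Q ^ s.card + Q * ‖∏ j ∈ s, a j - ∏ j ∈ s, b j‖ := by
      rw [e1]
      refine (norm_add_le _ _).trans ?_
      rw [norm_mul, norm_mul]
      exact add_le_add (mul_le_mul hx1 hA (norm_nonneg _) ((norm_nonneg _).trans hx1))
        (mul_le_mul_of_nonneg_right hx2 (norm_nonneg _))
    calc ‖a x * ∏ j ∈ s, a j - b x * ∏ j ∈ s, b j‖ * Q
        ≤ (Δ * Q ^ s.card + Q * ‖∏ j ∈ s, a j - ∏ j ∈ s, b j‖) * Q :=
          mul_le_mul_of_nonneg_right e2 hQ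
      _ = Δ * Q ^ s.card * Q + Q * (‖∏ j ∈ s, a j - ∏ j ∈ s, b j‖ * Q) := by ring
      _ ≤ Δ * Q ^ s.card * Q + Q * (s.card * Δ * Q ^ s.card) := by
          have := mul_le_mul_of_nonneg_left ih' hQ
          linarith
      _ = ((s.card + 1 : ℕ) : ℝ) * Δ * Q ^ (s.card + 1) := by
          push_cast; ring

theorem t_CLOSE (hP : S_PAIR) : S_CLOSE := by
  intro G α β d n D c c' hn hnD hDd hd hG hGd hc hc'
  obtain ⟨ε, R₀, K₀, hε, hR₀, hK₀, H⟩ := hP G d hd hG hGd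
  have hd0 : (0 : ℝ) < d := by positivity
  have hdne : (d : ℝ) ≠ 0 := hd0.ne'
  have hB0 : 0 ≤ K₀ * (c' + 2 * c) := by positivity
  refine ⟨ε, R₀ ^ d, n * (K₀ * (c' + 2 * c)) * ((n : ℝ) + 2) ^ n + 1, hε, one_le_pow₀ hR₀, ?_, ?_⟩
  · have : 0 ≤ n * (K₀ * (c' + 2 * c)) * ((n : ℝ) + 2) ^ n := by positivity
    linarith
  intro γ γ' W W' hW hW' hγ hγ' hγγ hdir t i
  set g : ℝ := |(γ : ℝ)| ^ (1 / (d : ℝ)) with hg
  set g' : ℝ := |(γ' : ℝ)| ^ (1 / (d : ℝ)) with hg'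
  have root : ∀ x : ℝ, R₀ ^ d ≤ x → R₀ ≤ x ^ (1 / (d : ℝ)) := by
    intro x hx
    have h1 : (R₀ ^ d) ^ (1 / (d : ℝ)) = R₀ := by
      rw [one_div]
      exact Real.pow_rpow_inv_natCast (by linarith) (by omega)
    rw [← h1]
    exact Real.rpow_le_rpow (by positivity) hx (by positivity)
  have hgR : R₀ ≤ g := root _ hγ
  have hgR' : R₀ ≤ g' := root _ hγ'
  set M : ℝ := max |(γ : ℝ)| |(γ' : ℝ)| with hM
  have hM1 : 1 ≤ M := by
    have h1 : (1 : ℝ) ≤ R₀ ^ d := one_le_pow₀ hR₀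
    exact h1.trans (hγ.trans (le_max_left _ _))
  set m : ℝ := max g g' with hm
  have hm1 : 1 ≤ m := hR₀.trans (hgR.trans (le_max_left _ _))
  have hmM : m = M ^ (1 / (d : ℝ)) := by
    have hmono : ∀ x y : ℝ, 0 ≤ x → x ≤ y → x ^ (1 / (d : ℝ)) ≤ y ^ (1 / (d : ℝ)) :=
      fun x y hx hxy => Real.rpow_le_rpow hx hxy (by positivity)
    rcases le_total |(γ : ℝ)| |(γ' : ℝ)| with h | h
    · rw [hm, hM, max_eq_right h, max_eq_right (hmono _ _ (abs_nonneg _) h)]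
    · rw [hm, hM, max_eq_left h, max_eq_left (hmono _ _ (abs_nonneg _) h)]
  have hpow : M ^ (1 - (D : ℝ) / d) = m ^ (d - D) := by
    rw [hmM, ← Real.rpow_natCast, ← Real.rpow_mul (by linarith), Nat.cast_sub hDd.le]
    congr 1
    field_simp
  have hdD : m ≤ m ^ (d - D) := by
    calc m = m ^ 1 := (pow_one m).symm
      _ ≤ m ^ (d - D) := pow_le_pow_right₀ hm1 (by omega)
  have g0 : 0 < g := by linarith
  have g0' : 0 < g' := by linarith
  -- the distance of the members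
  have hdist : ∀ j, ‖W j i - W' j i‖ * m ^ (D - 1) ≤ K₀ * (c' + 2 * c) := by
    intro j
    have e1 : (g : ℂ) * (W j i / (g : ℂ)) = W j i := by
      have : (g : ℂ) ≠ 0 := by exact_mod_cast g0.ne'
      field_simp
    have e2 : (g' : ℂ) * (W' j i / (g' : ℂ)) = W' j i := by
      have : (g' : ℂ) ≠ 0 := by exact_mod_cast g0'.ne'
      field_simp
    have n1 : ‖W j i / (g : ℂ)‖ = ‖W j i‖ / g := by
      rw [norm_div, Complex.norm_real, Real.norm_eq_abs, abs_of_pos g0]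
    have n2 : ‖W' j i / (g' : ℂ)‖ = ‖W' j i‖ / g' := by
      rw [norm_div, Complex.norm_real, Real.norm_eq_abs, abs_of_pos g0']
    have h1 := H g g' (W j i / (g : ℂ)) (W' j i / (g' : ℂ)) hgR hgR'
      (by rw [n1, le_div_iff₀ g0]; exact hW.lo j i)
      (by rw [n1, div_le_iff₀ g0]; exact hW.hi j i)
      (by rw [n2, le_div_iff₀ g0']; exact hW'.lo j i)
      (by rw [n2, div_le_iff₀ g0']; exact hW'.hi j i)
      (hdir j i)
    rw [e1, e2, ← hm] at h1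
    have h2 : ‖G.eval (W j i) - G.eval (W' j i)‖ ≤ (c' + 2 * c) * m ^ (d - D) := by
      have e3 : G.eval (W j i) - G.eval (W' j i) =
          (G.eval (W j i) + (γ : ℂ)) - (G.eval (W' j i) + (γ' : ℂ)) -
            (((γ : ℝ) - γ' : ℝ) : ℂ) := by
        push_cast; ring
      have f1 : ‖G.eval (W j i) + (γ : ℂ)‖ ≤ c * m :=
        (hW.near j i).trans (mul_le_mul_of_nonneg_left (le_max_left _ _) hc)
      have f2 : ‖G.eval (W' j i) + (γ' : ℂ)‖ ≤ c * m :=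
        (hW'.near j i).trans (mul_le_mul_of_nonneg_left (le_max_right _ _) hc)
      have f3 : ‖(((γ : ℝ) - γ' : ℝ) : ℂ)‖ ≤ c' * m ^ (d - D) := by
        rw [Complex.norm_real, Real.norm_eq_abs, ← hpow]
        exact hγγ
      rw [e3]
      refine (norm_sub_le _ _).trans ?_
      have f4 := norm_sub_le (G.eval (W j i) + (γ : ℂ)) (G.eval (W' j i) + (γ' : ℂ))
      have f5 : c * m ≤ c * m ^ (d - D) := mul_le_mul_of_nonneg_left hdD hc
      nlinarith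
    have h3 : ‖W j i - W' j i‖ * m ^ (d - 1) ≤ K₀ * ((c' + 2 * c) * m ^ (d - D)) :=
      h1.trans (mul_le_mul_of_nonneg_left h2 (by linarith))
    have e4 : m ^ (d - 1) = m ^ (D - 1) * m ^ (d - D) := by
      rw [← pow_add]; congr 1; omega
    rw [e4] at h3
    have hp : 0 < m ^ (d - D) := by positivity
    have h4 : (‖W j i - W' j i‖ * m ^ (D - 1)) * m ^ (d - D) ≤
        (K₀ * (c' + 2 * c)) * m ^ (d - D) := by
      linarith
    exact le_of_mul_le_mul_right h4 hp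
  have hmD : 0 < m ^ (D - 1) := by positivity
  set B : ℝ := K₀ * (c' + 2 * c) with hB
  have hdist' : ∀ j ∈ (Finset.univ : Finset (Fin n)),
      ‖(((t : ℕ) : ℂ) - W j i) - (((t : ℕ) : ℂ) - W' j i)‖ ≤ B / m ^ (D - 1) := by
    intro j _
    rw [le_div_iff₀ hmD]
    have e5 : (((t : ℕ) : ℂ) - W j i) - (((t : ℕ) : ℂ) - W' j i) = -(W j i - W' j i) := by ring
    rw [e5, norm_neg]
    exact hdist j
  have ht : ‖((t : ℕ) : ℂ)‖ ≤ n := by
    rw [Complex.norm_natCast]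
    exact_mod_cast t.2.le
  have hn0 : (0 : ℝ) ≤ n := by positivity
  have hsz : ∀ j ∈ (Finset.univ : Finset (Fin n)), ‖((t : ℕ) : ℂ) - W j i‖ ≤ ((n : ℝ) + 2) * m := by
    intro j _
    have k1 := norm_sub_le ((t : ℕ) : ℂ) (W j i)
    have k2 : ‖W j i‖ ≤ 2 * m := (hW.hi j i).trans (by
      have := le_max_left g g'
      linarith)
    nlinarith
  have hsz' : ∀ j ∈ (Finset.univ : Finset (Fin n)),
      ‖((t : ℕ) : ℂ) - W' j i‖ ≤ ((n : ℝ) + 2) * m := by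
    intro j _
    have k1 := norm_sub_le ((t : ℕ) : ℂ) (W' j i)
    have k2 : ‖W' j i‖ ≤ 2 * m := (hW'.hi j i).trans (by
      have := le_max_right g g'
      linarith)
    nlinarith
  have hQ : 0 < ((n : ℝ) + 2) * m := by positivity
  have hfin := prod_sub_le (Finset.univ : Finset (Fin n)) (fun j => ((t : ℕ) : ℂ) - W j i)
    (fun j => ((t : ℕ) : ℂ) - W' j i) (B / m ^ (D - 1)) (((n : ℝ) + 2) * m) hQ.le hdist' hsz hsz'
  rw [Finset.card_univ, Fintype.card_fin] at hfin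
  obtain ⟨k, rfl⟩ : ∃ k, n = k + 1 := ⟨n - 1, by omega⟩
  have h5 : ‖∏ j, (((t : ℕ) : ℂ) - W j i) - ∏ j, (((t : ℕ) : ℂ) - W' j i)‖ ≤
      ((k + 1 : ℕ) : ℝ) * (B / m ^ (D - 1)) * ((((k + 1 : ℕ) : ℝ) + 2) * m) ^ k := by
    refine le_of_mul_le_mul_right ?_ hQ
    refine hfin.trans (le_of_eq ?_)
    rw [pow_succ]; ring
  have h6 : B / m ^ (D - 1) * m ^ k ≤ B := by
    rw [div_mul_eq_mul_div, div_le_iff₀ hmD]
    exact mul_le_mul_of_nonneg_left (pow_le_pow_right₀ hm1 (by omega)) hB0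
  have h7 : (((k + 1 : ℕ) : ℝ) + 2) ^ k ≤ (((k + 1 : ℕ) : ℝ) + 2) ^ (k + 1) :=
    pow_le_pow_right₀ (by linarith) (by omega)
  have h8 : 0 ≤ (((k + 1 : ℕ) : ℝ) + 2) ^ k := by positivity
  calc _ ≤ ((k + 1 : ℕ) : ℝ) * (B / m ^ (D - 1)) * ((((k + 1 : ℕ) : ℝ) + 2) * m) ^ k := h5
    _ = ((k + 1 : ℕ) : ℝ) * (((k + 1 : ℕ) : ℝ) + 2) ^ k * (B / m ^ (D - 1) * m ^ k) := by
        rw [mul_pow]; ring
    _ ≤ ((k + 1 : ℕ) : ℝ) * (((k + 1 : ℕ) : ℝ) + 2) ^ k * B :=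
        mul_le_mul_of_nonneg_left h6 (by positivity)
    _ ≤ ((k + 1 : ℕ) : ℝ) * (((k + 1 : ℕ) : ℝ) + 2) ^ (k + 1) * B :=
        mul_le_mul_of_nonneg_right (mul_le_mul_of_nonneg_left h7 hn0) hB0
    _ ≤ _ := by linarith

end Pool.Agent.J4H93.HN
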