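import Mathlib

/-! Project HN (MP_54bae5_nt, Q1, Hahn's question): statements of the pieces. -/

set_option autoImplicit false

namespace Pool.Agent.J4H93.HN

open Finset Filter Topology

/-- sum of the reciprocals -/
noncomputable def R (A : Finset ℕ) : ℝ := ∑ n ∈ A, (1 : ℝ) / n

/-- elementary symmetric sum of the reciprocals: products of `k` distinct members of `P` -/
noncomputable def es (P : Finset ℕ) (k : ℕ) : ℝ := ∑ T ∈ P.powersetCard k, ∏ p ∈ T, (1 : ℝ) / p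

/-- the members of `A` divisible by `p` -/
def Mu (A : Finset ℕ) (p : ℕ) : Finset ℕ := A.filter (fun n => p ∣ n)

/-- the members of `A` dividing `x` -/
def Dv (A : Finset ℕ) (x : ℕ) : Finset ℕ := A.filter (fun n => n ∣ x)

/-- products of `k` distinct members of `P0` and `11` distinct members of `P1` -/
def SS (P0 P1 : Finset ℕ) (k : ℕ) : Finset ℕ :=
  ((P0.powersetCard k) ×ˢ (P1.powersetCard 11)).image (fun z => (∏ p ∈ z.1, p) * ∏ q ∈ z.2, q)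

/-- the interval of radius `Y^240` around `h` -/
def II (Y h : ℕ) : Finset ℕ := Finset.Icc (h - Y ^ 240) (h + Y ^ 240)

/-- the parameters -/
structure Par (Y k : ℕ) (P0 P1 : Finset ℕ) (τ : ℝ) : Prop where
  hY : 10 ^ 6 ≤ Y
  k2 : 2 ≤ k
  p0 : ∀ p ∈ P0, p.Prime ∧ p ^ k ≤ Y ^ 30
  p1 : ∀ q ∈ P1, q.Prime ∧ Y ^ 29 < q ∧ q ≤ Y ^ 30
  dis : Disjoint P0 P1
  sig : R P1 ≤ 1 / 2
  eL : Real.exp (R P0) ≤ Y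
  tau : 1 / (Y : ℝ) ≤ τ
  psi : (3 / 5 * R P0) ^ (k - 1) / (Nat.factorial (k - 1) : ℝ)
      + (3 / 5 * R P0) ^ k / (Nat.factorial k : ℝ) ≤ τ / 8
  few : ∀ d : ℕ, 0 < d → d ≤ 2 * Y ^ 240 → R (Dv P0 d) < R P0 / 5

/-! ### elementary symmetric sums -/

/-- (E1) -/
def S_E1 : Prop := ∀ (P : Finset ℕ) (k : ℕ), es P k ≤ (R P) ^ k / (Nat.factorial k : ℝ)

/-- (E2) lower bound -/
def S_E2 : Prop := ∀ (P : Finset ℕ) (w : ℝ) (k : ℕ), 0 < w → (∀ p ∈ P, w ≤ (p : ℝ)) →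
  (k : ℝ) / w ≤ R P → (R P - k / w) ^ k / (Nat.factorial k : ℝ) ≤ es P k

/-- (E3) -/
def S_E3 : Prop := ∀ (P : Finset ℕ), es P 11 ≤ es P 8 * es P 3

/-- (SR) the mass of `SS` -/
def S_SR : Prop := ∀ (P0 P1 : Finset ℕ) (k : ℕ), (∀ p ∈ P0, p.Prime) → (∀ p ∈ P1, p.Prime) →
  Disjoint P0 P1 → R (SS P0 P1 k) = es P0 k * es P1 11

/-- (DX) the members of `SS` dividing `x` -/
def S_DX : Prop := ∀ (P0 P1 : Finset ℕ) (k x : ℕ), (∀ p ∈ P0, p.Prime) → (∀ p ∈ P1, p.Prime) →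
  Disjoint P0 P1 → 0 < x → R (Dv (SS P0 P1 k) x) ≤ es (Dv P0 x) k * es (Dv P1 x) 11

/-- (MD) the members of `SS` dividing `x` and divisible by `p` -/
def S_MD : Prop := ∀ (P0 P1 : Finset ℕ) (k x p : ℕ), (∀ p ∈ P0, p.Prime) → (∀ p ∈ P1, p.Prime) →
  Disjoint P0 P1 → 0 < x → 1 ≤ k →
  (p ∈ P0 → R (Mu (Dv (SS P0 P1 k) x) p) ≤ 1 / (p : ℝ) * (es (Dv P0 x) (k - 1) * es (Dv P1 x) 11)) ∧
  (p ∈ P1 → R (Mu (Dv (SS P0 P1 k) x) p) ≤ 1 / (p : ℝ) * (es (Dv P0 x) k * es (Dv P1 x) 10))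

/-- (SZ) the size of the members of `SS` -/
def S_SZ : Prop := ∀ (Y k : ℕ) (P0 P1 : Finset ℕ) (τ : ℝ), Par Y k P0 P1 τ →
  ∀ n ∈ SS P0 P1 k, Y ^ 319 ≤ n ∧ n ≤ Y ^ 360 ∧ Squarefree n ∧ (∀ p, p.Prime → p ∣ n → p ∈ P0 ∪ P1)

/-! ### the combinatorial half -/

/-- (CNT) -/
def S_CNT : Prop := ∀ (Y k : ℕ) (P0 P1 : Finset ℕ) (τ : ℝ), Par Y k P0 P1 τ →
  ∀ h : ℕ, Y ^ 240 < h → ∑ x ∈ II Y h, es (Dv P1 x) 8 ≤ 3 * (Y : ℝ) ^ 8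

/-- (LIGHT) -/
def S_LIGHT : Prop := ∀ (Y k : ℕ) (P0 P1 : Finset ℕ) (τ : ℝ), Par Y k P0 P1 τ →
  ∀ h : ℕ, Y ^ 240 < h →
  ∑ x ∈ (II Y h).filter (fun x => R (Dv P1 x) ≤ 1 / (Y : ℝ) ^ 14), R (Dv (SS P0 P1 k) x)
    ≤ τ / (8 * (Y : ℝ) ^ 30)

/-- (HEAVY) -/
def S_HEAVY : Prop := ∀ (Y k : ℕ) (P0 P1 : Finset ℕ) (τ : ℝ), Par Y k P0 P1 τ →
  ∀ h : ℕ, Y ^ 240 < h →
  ∑ x ∈ (II Y h).filter (fun x => 1 / (Y : ℝ) ^ 14 < R (Dv P1 x)), R (Dv P1 x) ≤ 1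

/-- (POOR) -/
def S_POOR : Prop := ∀ (Y k : ℕ) (P0 P1 : Finset ℕ) (τ : ℝ), Par Y k P0 P1 τ →
  ∀ h : ℕ, Y ^ 240 < h → ∀ p ∈ P0 ∪ P1,
  ∑ x ∈ (II Y h).filter (fun x => 1 / (Y : ℝ) ^ 14 < R (Dv P1 x) ∧ R (Dv P0 x) < 3 / 5 * R P0),
    R (Mu (Dv (SS P0 P1 k) x) p) ≤ τ / (8 * (p : ℝ))

/-- (RICH) -/
def S_RICH : Prop := ∀ (Y k : ℕ) (P0 P1 : Finset ℕ) (τ : ℝ), Par Y k P0 P1 τ →
  ∀ h : ℕ, Y ^ 240 < h → ∀ x ∈ II Y h, ∀ x' ∈ II Y h,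
  3 / 5 * R P0 ≤ R (Dv P0 x) → 3 / 5 * R P0 ≤ R (Dv P0 x') → x = x'

/-- the members of `B` without a multiple in the interval around `h` -/
def Bad (B : Finset ℕ) (Y h : ℕ) : Finset ℕ := B.filter (fun n => ∀ x ∈ II Y h, ¬ n ∣ x)

/-- (CMB) -/
def S_CMB : Prop := ∀ (Y k : ℕ) (P0 P1 : Finset ℕ) (τ : ℝ), Par Y k P0 P1 τ →
  ∀ B ⊆ SS P0 P1 k, B.Nonempty → (∀ p ∈ P0 ∪ P1, (Mu B p).Nonempty → τ / p ≤ R (Mu B p)) →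
  ∀ h : ℕ, Y ^ 240 < h → (Bad B Y h).card < Y ^ 271 → ∃ x ∈ II Y h, ∀ n ∈ B, n ∣ x

/-- (PRU) pruning -/
def S_PRU : Prop := ∀ (A Q : Finset ℕ) (τ : ℝ), 0 ≤ τ → ∃ B ⊆ A, R A - τ * R Q ≤ R B ∧
  ∀ p ∈ Q, (Mu B p).Nonempty → τ / p ≤ R (Mu B p)

/-! ### the analytic half -/

/-- the probability of the subset `S` of `B` -/
noncomputable def wt (B : Finset ℕ) (q : ℝ) (S : Finset ℕ) : ℝ := q ^ S.card * (1 - q) ^ (B.card - S.card)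

/-- the characteristic function -/
noncomputable def Ph (B : Finset ℕ) (q : ℝ) (h : ℤ) : ℂ :=
  ∏ n ∈ B, (1 - (q : ℂ) + q * Complex.exp (2 * Real.pi * Complex.I * h / n))

open scoped Classical in
/-- (FOU) -/
def S_FOU : Prop := ∀ (B : Finset ℕ) (q : ℝ) (P : ℕ), 0 < P → (∀ n ∈ B, n ∣ P) →
  ∑ h ∈ Finset.range P, Ph B q h =
    (P : ℂ) * ((∑ S ∈ B.powerset.filter (fun S => ∃ m : ℕ, R S = m), wt B q S : ℝ) : ℂ)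

/-- (TAIL) -/
def S_TAIL : Prop := ∀ (B : Finset ℕ) (N : ℕ), 0 < N → (∀ n ∈ B, N ≤ n) → 2 ≤ R B →
  ∑ S ∈ B.powerset.filter (fun S => 2 ≤ R S), wt B (1 / R B) S ≤ Real.exp (-(N : ℝ) / 4) ∧
  wt B (1 / R B) ∅ ≤ Real.exp (-(N : ℝ))

/-- (FAC) one factor -/
def S_FAC : Prop := ∀ (q t d : ℝ), 0 ≤ q → q ≤ 1 / 2 → 0 ≤ d → (∀ m : ℤ, d ≤ |t - m|) →
  ‖1 - (q : ℂ) + q * Complex.exp (2 * Real.pi * Complex.I * t)‖ ≤ Real.exp (-(4 * q * d ^ 2))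

/-- (MID) -/
def S_MID : Prop := ∀ (Y : ℕ), 10 ^ 6 ≤ Y → ∀ B : Finset ℕ, (∀ n ∈ B, Y ^ 319 ≤ n ∧ n ≤ Y ^ 360) →
  2 ≤ R B → ∀ h : ℕ, Y ^ 181 < h → h ≤ Y ^ 240 →
  ‖Ph B (1 / R B) h‖ ≤ Real.exp (-(Y : ℝ) ^ 2)

/-- (BAD) -/
def S_BAD : Prop := ∀ (Y : ℕ), 10 ^ 6 ≤ Y → ∀ B : Finset ℕ, (∀ n ∈ B, Y ^ 319 ≤ n ∧ n ≤ Y ^ 360) →
  2 ≤ R B → R B ≤ Y → ∀ h : ℕ, Y ^ 240 < h → Y ^ 271 ≤ (Bad B Y h).card →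
  ‖Ph B (1 / R B) h‖ ≤ Real.exp (-3 * (Y : ℝ) ^ 30)

/-- (SML) -/
def S_SML : Prop := ∀ (Y : ℕ), 10 ^ 6 ≤ Y → ∀ B : Finset ℕ, (∀ n ∈ B, Y ^ 319 ≤ n ∧ n ≤ Y ^ 360) →
  2 ≤ R B → ∀ h : ℕ, h ≤ Y ^ 181 → 0 ≤ (Ph B (1 / R B) h).re

/-- (CIR) -/
def S_CIR : Prop := ∀ (Y : ℕ), 10 ^ 6 ≤ Y → ∀ (B : Finset ℕ) (P : ℕ), 0 < P → (∀ n ∈ B, n ∣ P) →
  (∀ n ∈ B, Y ^ 319 ≤ n ∧ n ≤ Y ^ 360) → 2 ≤ R B → R B ≤ Y → (P : ℝ) ≤ Real.exp (2 * (Y : ℝ) ^ 30) →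
  (∀ h : ℕ, Y ^ 240 < h → 2 * h ≤ P → Y ^ 271 ≤ (Bad B Y h).card) →
  ∃ S ⊆ B, R S = 1

/-! ### the parameters exist -/

/-- (PSI) -/
def S_PSI : Prop :=
  Tendsto (fun L : ℝ => (L + 1) * (8 * ((3 / 5 * L) ^ (⌊2 * L⌋₊ - 1) / (Nat.factorial (⌊2 * L⌋₊ - 1) : ℝ)
      + (3 / 5 * L) ^ ⌊2 * L⌋₊ / (Nat.factorial ⌊2 * L⌋₊ : ℝ)))) atTop (𝓝 0) ∧
  Tendsto (fun L : ℝ => (L - 1) ^ ⌊2 * L⌋₊ / (Nat.factorial ⌊2 * L⌋₊ : ℝ)) atTop atTop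

/-- the small primes -/
def PA (V : ℕ) : Finset ℕ := (Finset.Ioc ((Nat.log 2 V) ^ 3) (V ^ 30)).filter Nat.Prime

/-- the large primes -/
def PB (Y : ℕ) : Finset ℕ := (Finset.Ioc (Y ^ 29) (Y ^ 30)).filter Nat.Prime

/-- (ME0) -/
def S_ME0 : Prop := Tendsto (fun V : ℕ => R (PA V)) atTop atTop ∧
  ∃ C : ℝ, ∀ V : ℕ, 2 ≤ V → Real.exp (R (PA V)) ≤ C * Real.log V

/-- (ME1) -/
def S_ME1 : Prop := ∀ᶠ Y : ℕ in atTop, 1 / 40 ≤ R (PB Y) ∧ R (PB Y) ≤ 1 / 2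

/-- (FEW) -/
def S_FEW : Prop := ∀ᶠ V : ℕ in atTop, ∀ d : ℕ, 0 < d →
  d ≤ 2 * (V ^ ⌊2 * R (PA V)⌋₊) ^ 240 → R (Dv (PA V) d) < R (PA V) / 5

/-- (NUM) -/
def S_NUM : Prop := ∀ (r N0 : ℕ), ∃ (Y k : ℕ) (P0 P1 : Finset ℕ) (τ : ℝ), Par Y k P0 P1 τ ∧ N0 ≤ Y ∧
  (r : ℝ) * (2 + τ * R (P0 ∪ P1)) ≤ R (SS P0 P1 k)

/-! ### the conclusions -/

/-- (CR) every finite colouring has monochromatic sets of large integers with reciprocal sum 1 -/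
def S_CR : Prop := ∀ (r : ℕ) (c : ℕ → Fin r) (N0 : ℕ), ∃ (S : Finset ℕ) (i : Fin r),
  (∀ n ∈ S, N0 < n ∧ c n = i) ∧ R S = 1

/-- (HA) Hahn's question -/
def S_HA : Prop := ∀ (r : ℕ) (c : ℕ → Fin r), ∃ i : Fin r, ∀ q : ℚ, 0 < q →
  ∃ F : Finset ℕ, F.Nonempty ∧ (∀ a ∈ F, 0 < a ∧ c a = i) ∧ ∑ a ∈ F, (1 : ℚ) / a = q

end Pool.Agent.J4H93.HN
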