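import Mathlib
import Pool.Agent.J4H93.HN.Stm

set_option autoImplicit false

namespace Pool.Agent.J4H93.HN

open Finset Filter Topology

theorem R_nonneg (A : Finset ℕ) : 0 ≤ R A := by
  unfold R; exact Finset.sum_nonneg fun _ _ => by positivity

theorem R_mono {A B : Finset ℕ} (h : A ⊆ B) : R A ≤ R B := by
  unfold R; exact Finset.sum_le_sum_of_subset_of_nonneg h fun _ _ _ => by positivity

theorem t_CR (hNUM : S_NUM) (hSZ : S_SZ) (hSR : S_SR) (hE1 : S_E1) (hCMB : S_CMB) (hPRU : S_PRU)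
    (hCIR : S_CIR) : S_CR := by
  intro r c N0
  have hr : 0 < r := Fin.pos (c 0)
  obtain ⟨Y, k, P0, P1, τ, hPar, hN0, hmass⟩ := hNUM r N0
  have hY := hPar.hY
  have hY0 : (0 : ℝ) < Y := by exact_mod_cast (by omega : 0 < Y)
  have hY1 : (1 : ℝ) ≤ Y := by exact_mod_cast (by omega : 1 ≤ Y)
  have hτ : 0 ≤ τ := le_trans (by positivity) hPar.tau
  -- the colour class
  have hsum : ∑ i : Fin r, R ((SS P0 P1 k).filter (fun n => c n = i)) = R (SS P0 P1 k) := by
    unfold R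
    exact Finset.sum_fiberwise _ _ _
  have hex : ∃ i : Fin r, 2 + τ * R (P0 ∪ P1) ≤ R ((SS P0 P1 k).filter (fun n => c n = i)) := by
    by_contra hcon
    push Not at hcon
    have hlt : ∑ i : Fin r, R ((SS P0 P1 k).filter (fun n => c n = i))
        < ∑ _i : Fin r, (2 + τ * R (P0 ∪ P1)) :=
      Finset.sum_lt_sum_of_nonempty ⟨⟨0, hr⟩, Finset.mem_univ _⟩ fun i _ => hcon i
    rw [hsum, Finset.sum_const, Finset.card_univ, Fintype.card_fin, nsmul_eq_mul] at hlt
    linarith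
  obtain ⟨i, hi⟩ := hex
  obtain ⟨B, hBA, hB1, hB2⟩ := hPRU ((SS P0 P1 k).filter (fun n => c n = i)) (P0 ∪ P1) τ hτ
  have hBS : B ⊆ SS P0 P1 k := hBA.trans (Finset.filter_subset _ _)
  have hR2 : 2 ≤ R B := by linarith
  have hBne : B.Nonempty := by
    rw [Finset.nonempty_iff_ne_empty]
    rintro rfl
    simp [R] at hR2
    linarith
  have hp0 : ∀ p ∈ P0, p.Prime := fun p hp => (hPar.p0 p hp).1
  have hp1 : ∀ p ∈ P1, p.Prime := fun p hp => (hPar.p1 p hp).1
  have hRY : R B ≤ Y := by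
    have h1 : R B ≤ R (SS P0 P1 k) := R_mono hBS
    rw [hSR P0 P1 k hp0 hp1 hPar.dis] at h1
    have h2 : es P0 k ≤ Real.exp (R P0) :=
      (hE1 P0 k).trans (Real.pow_div_factorial_le_exp _ (R_nonneg _) _)
    have h3 : es P1 11 ≤ 1 := by
      refine (hE1 P1 11).trans ?_
      have h4 : R P1 ^ 11 ≤ 1 := pow_le_one₀ (R_nonneg _) (by linarith [hPar.sig])
      have h5 : (1 : ℝ) ≤ (Nat.factorial 11 : ℝ) := by
        exact_mod_cast Nat.factorial_pos 11
      rw [div_le_one (by linarith)]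
      linarith
    have h6 : 0 ≤ es P0 k := by
      unfold es; exact Finset.sum_nonneg fun _ _ => Finset.prod_nonneg fun _ _ => by positivity
    calc R B ≤ es P0 k * es P1 11 := h1
      _ ≤ es P0 k * 1 := by gcongr
      _ ≤ Y := by rw [mul_one]; exact h2.trans hPar.eL
  have hsz := hSZ Y k P0 P1 τ hPar
  -- the modulus
  have hPpos : 0 < B.lcm id := by
    rw [Nat.pos_iff_ne_zero]
    intro h0
    rw [Finset.lcm_eq_zero_iff] at h0
    obtain ⟨n, hn, hn0⟩ := h0
    have h1 := (hsz n (hBS hn)).1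
    simp only [id] at hn0
    rw [hn0] at h1
    have : 0 < Y ^ 319 := by positivity
    omega
  have hdiv : ∀ n ∈ B, n ∣ B.lcm id := fun n hn => Finset.dvd_lcm (f := id) hn
  have hple : ∀ p ∈ P0 ∪ P1, p.Prime ∧ p ≤ Y ^ 30 := by
    intro p hp
    rcases Finset.mem_union.1 hp with h | h
    · refine ⟨hp0 p h, ?_⟩
      have h1 := (hPar.p0 p h).2
      exact (Nat.le_self_pow (by have := hPar.k2; omega) p).trans h1
    · exact ⟨hp1 p h, (hPar.p1 p h).2.2⟩
  have hPle : ((B.lcm id : ℕ) : ℝ) ≤ Real.exp (2 * (Y : ℝ) ^ 30) := by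
    have h1 : B.lcm id ∣ ∏ p ∈ P0 ∪ P1, p := by
      refine Finset.lcm_dvd fun n hn => ?_
      obtain ⟨-, -, hsq, hpp⟩ := hsz n (hBS hn)
      simp only [id]
      rw [← Nat.prod_primeFactors_of_squarefree hsq]
      refine Finset.prod_dvd_prod_of_subset _ _ _ fun p hp => ?_
      exact hpp p (Nat.prime_of_mem_primeFactors hp) (Nat.dvd_of_mem_primeFactors hp)
    have h2 : ∏ p ∈ P0 ∪ P1, p ≤ primorial (Y ^ 30) := by
      unfold primorial
      refine Finset.prod_le_prod_of_subset_of_one_le' (fun p hp => ?_) fun p hp _ => ?_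
      · obtain ⟨h3, h4⟩ := hple p hp
        rw [Finset.mem_filter, Finset.mem_range]
        exact ⟨by omega, h3⟩
      · exact (Finset.mem_filter.1 hp).2.one_lt.le
    have h3 : 0 < ∏ p ∈ P0 ∪ P1, p := Finset.prod_pos fun p hp => (hple p hp).1.pos
    have h4 : B.lcm id ≤ 4 ^ (Y ^ 30) :=
      (Nat.le_of_dvd h3 h1).trans (h2.trans (primorial_le_four_pow _))
    have h5 : ((B.lcm id : ℕ) : ℝ) ≤ (4 : ℝ) ^ (Y ^ 30) := by exact_mod_cast h4
    refine h5.trans ?_
    have h6 : (4 : ℝ) ≤ Real.exp 2 := by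
      have h7 : (2.7 : ℝ) < Real.exp 1 := by have := Real.exp_one_gt_d9; linarith
      have h8 : Real.exp 2 = Real.exp 1 * Real.exp 1 := by rw [← Real.exp_add]; norm_num
      rw [h8]; nlinarith
    calc (4 : ℝ) ^ (Y ^ 30) ≤ (Real.exp 2) ^ (Y ^ 30) := by gcongr
      _ = Real.exp (2 * (Y : ℝ) ^ 30) := by
          rw [← Real.exp_nat_mul]; push_cast; ring_nf
  obtain ⟨S, hSB, hS1⟩ := hCIR Y hY B (B.lcm id) hPpos hdiv
    (fun n hn => ⟨(hsz n (hBS hn)).1, (hsz n (hBS hn)).2.1⟩) hR2 hRY hPle (by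
      intro h hh hhP
      by_contra hcon
      push Not at hcon
      obtain ⟨x, hx, hdx⟩ := hCMB Y k P0 P1 τ hPar B hBS hBne hB2 h hh hcon
      have h1 : B.lcm id ∣ x := Finset.lcm_dvd fun n hn => hdx n hn
      unfold II at hx
      rw [Finset.mem_Icc] at hx
      have hxpos : 0 < x := by omega
      have h2 : B.lcm id ≤ x := Nat.le_of_dvd hxpos h1
      obtain ⟨n, hn⟩ := hBne
      have h3 : n ≤ B.lcm id := Nat.le_of_dvd hPpos (hdiv n hn)
      have h4 := (hsz n (hBS hn)).1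
      have h5 : 2 * Y ^ 240 < Y ^ 319 := by
        have h6 : Y ^ 319 = Y ^ 79 * Y ^ 240 := by rw [← pow_add]
        rw [h6]
        have h7 : 2 < Y ^ 79 := lt_of_lt_of_le (by omega : 2 < Y) (Nat.le_self_pow (by norm_num) Y)
        exact Nat.mul_lt_mul_of_pos_right h7 (by positivity)
      omega)
  refine ⟨S, i, fun n hn => ?_, hS1⟩
  have hnB := hSB hn
  refine ⟨?_, (Finset.mem_filter.1 (hBA hnB)).2⟩
  have h1 := (hsz n (hBS hnB)).1
  have h2 : Y < Y ^ 319 := by
    calc Y = Y ^ 1 := (pow_one Y).symm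
      _ < Y ^ 319 := Nat.pow_lt_pow_right (by omega) (by norm_num)
  omega

end Pool.Agent.J4H93.HN
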