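import Mathlib
import Pool.Agent.J4H93.HN.Stm

set_option autoImplicit false

namespace Pool.Agent.J4H93.HN

open Finset Filter Topology

theorem t_HA (hCR : S_CR) : S_HA := by
  intro r c
  have hr : 0 < r := Fin.pos (c 0)
  -- one colour for every `k`
  have h1 : ∀ k : ℕ, ∃ i : Fin r, ∀ N0 : ℕ, ∃ S : Finset ℕ,
      (∀ n ∈ S, N0 < n ∧ c (k.factorial * n) = i) ∧ R S = 1 := by
    intro k
    by_contra hcon
    push Not at hcon
    choose N hN using hcon
    obtain ⟨S, i, hS, hS1⟩ := hCR r (fun n => c (k.factorial * n)) (Finset.univ.sup N)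
    refine hN i S (fun n hn => ⟨?_, (hS n hn).2⟩) hS1
    exact lt_of_le_of_lt (Finset.le_sup (Finset.mem_univ i)) (hS n hn).1
  choose col hcol using h1
  -- one colour for infinitely many `k`
  have h2 : ∃ i : Fin r, ∀ K : ℕ, ∃ k, K ≤ k ∧ col k = i := by
    by_contra hcon
    push Not at hcon
    choose K hK using hcon
    exact hK (col (Finset.univ.sup K)) (Finset.univ.sup K) (Finset.le_sup (Finset.mem_univ _)) rfl
  obtain ⟨i, hi⟩ := h2
  refine ⟨i, fun q hq => ?_⟩
  obtain ⟨k, hk, hki⟩ := hi q.den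
  -- the multiples
  have h3 : ∀ t N0 : ℕ, ∃ S : Finset ℕ,
      (∀ n ∈ S, N0 < n ∧ c (k.factorial * n) = i) ∧ R S = t := by
    intro t
    induction t with
    | zero => intro N0; exact ⟨∅, by simp, by simp [R]⟩
    | succ t ih =>
      intro N0
      obtain ⟨S, hS, hSt⟩ := ih N0
      obtain ⟨S', hS', hS1'⟩ := hcol k (max N0 (S.sup id))
      have hdis : Disjoint S S' := by
        rw [Finset.disjoint_left]
        intro n hn hn'
        have ha := (hS' n hn').1
        have hb : n ≤ S.sup id := Finset.le_sup (f := id) hn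
        have hc := le_max_right N0 (S.sup id)
        omega
      refine ⟨S ∪ S', fun n hn => ?_, ?_⟩
      · rcases Finset.mem_union.1 hn with h | h
        · exact hS n h
        · have ha := (hS' n h).1
          have hc := le_max_left N0 (S.sup id)
          exact ⟨by omega, by rw [(hS' n h).2, hki]⟩
      · have : R (S ∪ S') = R S + R S' := by
          unfold R; exact Finset.sum_union hdis
        rw [this, hSt, hS1']; push_cast; ring
  have hdvd : q.den ∣ k.factorial := Nat.dvd_factorial q.pos hk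
  obtain ⟨m, hm⟩ := hdvd
  have hnum : 0 < q.num := Rat.num_pos.2 hq
  obtain ⟨a, ha⟩ := Int.eq_ofNat_of_zero_le hnum.le
  have hapos : 0 < a := by omega
  have hmpos : 0 < m := by
    rcases Nat.eq_zero_or_pos m with h | h
    · rw [h, mul_zero] at hm; exact absurd hm (Nat.factorial_ne_zero k)
    · exact h
  obtain ⟨S, hS, hSt⟩ := h3 (a * m) 0
  have hkpos : 0 < k.factorial := Nat.factorial_pos k
  have hSQ : ∑ n ∈ S, (1 : ℚ) / n = ((a * m : ℕ) : ℚ) := by
    have h4 : ((∑ n ∈ S, (1 : ℚ) / n : ℚ) : ℝ) = (((a * m : ℕ) : ℚ) : ℝ) := by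
      unfold R at hSt
      push_cast at hSt ⊢
      exact hSt
    exact_mod_cast h4
  refine ⟨S.image (fun n => k.factorial * n), ?_, ?_, ?_⟩
  · rw [Finset.image_nonempty, Finset.nonempty_iff_ne_empty]
    rintro rfl
    rw [Finset.sum_empty] at hSQ
    have : 0 < a * m := Nat.mul_pos hapos hmpos
    have h5 : (0 : ℚ) < ((a * m : ℕ) : ℚ) := by exact_mod_cast this
    rw [← hSQ] at h5
    exact lt_irrefl _ h5
  · intro x hx
    obtain ⟨n, hn, rfl⟩ := Finset.mem_image.1 hx
    exact ⟨Nat.mul_pos hkpos (hS n hn).1, (hS n hn).2⟩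
  · rw [Finset.sum_image (fun x _ y _ hxy => Nat.eq_of_mul_eq_mul_left hkpos hxy)]
    have h6 : ∀ n ∈ S, (1 : ℚ) / ((k.factorial * n : ℕ) : ℚ) = (1 / (k.factorial : ℚ)) * (1 / n) := by
      intro n _
      push_cast
      rw [one_div_mul_one_div]
    rw [Finset.sum_congr rfl h6, ← Finset.mul_sum, hSQ]
    have hq' : q = (q.num : ℚ) / q.den := (Rat.num_div_den q).symm
    rw [hq', ha, hm]
    have hd : (q.den : ℚ) ≠ 0 := by exact_mod_cast q.pos.ne'
    have hm' : (m : ℚ) ≠ 0 := by exact_mod_cast hmpos.ne'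
    push_cast
    field_simp

end Pool.Agent.J4H93.HN
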