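import Mathlib
import Pool.Agent.J4H93.HN.Stm

set_option autoImplicit false

namespace Pool.Agent.J4H93.HN

open Finset Filter Topology

theorem t_PRU : S_PRU := by
  intro A Q τ hτ
  classical
  -- the family of candidates
  let F : Finset (Finset ℕ) := A.powerset.filter (fun B =>
    R A - R B ≤ τ * ∑ p ∈ Q.filter (fun p => ¬ (Mu B p).Nonempty), (1 : ℝ) / p)
  have hF : F.Nonempty := by
    refine ⟨A, ?_⟩
    simp only [F, Finset.mem_filter, Finset.mem_powerset, Finset.Subset.refl, true_and, sub_self]
    exact mul_nonneg hτ (Finset.sum_nonneg fun _ _ => by positivity)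
  obtain ⟨B, hBF, hmin⟩ := Finset.exists_min_image F Finset.card hF
  simp only [F, Finset.mem_filter, Finset.mem_powerset] at hBF
  obtain ⟨hBA, hloss⟩ := hBF
  refine ⟨B, hBA, ?_, ?_⟩
  · have h1 : ∑ p ∈ Q.filter (fun p => ¬ (Mu B p).Nonempty), (1 : ℝ) / p ≤ R Q := by
      unfold R
      exact Finset.sum_le_sum_of_subset_of_nonneg (Finset.filter_subset _ _)
        fun _ _ _ => by positivity
    have h2 := mul_le_mul_of_nonneg_left h1 hτ
    linarith
  · intro p hp hne
    by_contra hlt
    push Not at hlt
    have hsub : Mu B p ⊆ B := Finset.filter_subset _ _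
    have hB' : B \ Mu B p ∈ F := by
      simp only [F, Finset.mem_filter, Finset.mem_powerset]
      refine ⟨Finset.sdiff_subset.trans hBA, ?_⟩
      have h1 : R (B \ Mu B p) + R (Mu B p) = R B := by
        unfold R; exact Finset.sum_sdiff hsub
      have hMu0 : ¬ (Mu (B \ Mu B p) p).Nonempty := by
        rintro ⟨n, hn⟩
        simp only [Mu, Finset.mem_filter, Finset.mem_sdiff] at hn
        tauto
      have h2 : (Q.filter (fun p => ¬ (Mu B p).Nonempty)) ∪ {p} ⊆
          Q.filter (fun p' => ¬ (Mu (B \ Mu B p) p').Nonempty) := by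
        intro p' hp'
        rw [Finset.mem_union, Finset.mem_singleton] at hp'
        rcases hp' with h | rfl
        · rw [Finset.mem_filter] at h ⊢
          refine ⟨h.1, fun hn => h.2 ?_⟩
          obtain ⟨n, hn⟩ := hn
          refine ⟨n, ?_⟩
          simp only [Mu, Finset.mem_filter, Finset.mem_sdiff] at hn ⊢
          exact ⟨hn.1.1, hn.2⟩
        · rw [Finset.mem_filter]; exact ⟨hp, hMu0⟩
      have h3 : Disjoint (Q.filter (fun p => ¬ (Mu B p).Nonempty)) {p} := by
        rw [Finset.disjoint_singleton_right, Finset.mem_filter]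
        tauto
      have h4 : ∑ p ∈ Q.filter (fun p => ¬ (Mu B p).Nonempty), (1 : ℝ) / p + 1 / p ≤
          ∑ p' ∈ Q.filter (fun p' => ¬ (Mu (B \ Mu B p) p').Nonempty), (1 : ℝ) / p' := by
        have h5 := Finset.sum_le_sum_of_subset_of_nonneg (f := fun p : ℕ => (1 : ℝ) / p) h2
          (fun _ _ _ => by positivity)
        rw [Finset.sum_union h3, Finset.sum_singleton] at h5
        exact h5
      have h6 := mul_le_mul_of_nonneg_left h4 hτ
      have h7 : τ * (1 / (p : ℝ)) = τ / p := by ring
      rw [mul_add, h7] at h6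
      linarith
    have h8 := hmin _ hB'
    have h9 : (B \ Mu B p).card < B.card := by
      refine Finset.card_lt_card ?_
      refine Finset.sdiff_ssubset hsub hne
    omega

end Pool.Agent.J4H93.HN
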