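import Mathlib
import Pool.Agent.J4H93.HN.Stm

set_option autoImplicit false

namespace Pool.Agent.J4H93.HN

open Finset Filter Topology

theorem t_SZ : S_SZ := by
  intro Y k P0 P1 τ hPar n hn
  have hY := hPar.hY
  have hk := hPar.k2
  unfold SS at hn
  rw [Finset.mem_image] at hn
  obtain ⟨⟨T, U⟩, hTU, rfl⟩ := hn
  rw [Finset.mem_product, Finset.mem_powersetCard, Finset.mem_powersetCard] at hTU
  obtain ⟨⟨hT, hTc⟩, hU, hUc⟩ := hTU
  simp only at hT hTc hU hUc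
  simp only
  have hTp : ∀ p ∈ T, p.Prime := fun p hp => (hPar.p0 p (hT hp)).1
  have hUp : ∀ p ∈ U, p.Prime := fun p hp => (hPar.p1 p (hU hp)).1
  have hTpos : 0 < ∏ p ∈ T, p := Finset.prod_pos fun p hp => (hTp p hp).pos
  -- upper bound for the first product
  have hTle : ∏ p ∈ T, p ≤ Y ^ 30 := by
    have h1 : (∏ p ∈ T, p) ^ k ≤ (Y ^ 30) ^ k := by
      rw [← Finset.prod_pow]
      calc ∏ p ∈ T, p ^ k ≤ ∏ _p ∈ T, Y ^ 30 :=
            Finset.prod_le_prod' fun p hp => (hPar.p0 p (hT hp)).2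
        _ = (Y ^ 30) ^ k := by rw [Finset.prod_const, hTc]
    exact (Nat.pow_le_pow_iff_left (by omega)).1 h1
  have hUle : ∏ q ∈ U, q ≤ Y ^ 330 := by
    calc ∏ q ∈ U, q ≤ ∏ _q ∈ U, Y ^ 30 :=
          Finset.prod_le_prod' fun p hp => (hPar.p1 p (hU hp)).2.2
      _ = Y ^ 330 := by rw [Finset.prod_const, hUc, ← pow_mul]
  have hUge : Y ^ 319 ≤ ∏ q ∈ U, q := by
    calc Y ^ 319 = ∏ _q ∈ U, Y ^ 29 := by rw [Finset.prod_const, hUc, ← pow_mul]
      _ ≤ ∏ q ∈ U, q := Finset.prod_le_prod' fun p hp => (hPar.p1 p (hU hp)).2.1.le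
  have hdis : Disjoint T U :=
    Finset.disjoint_of_subset_left hT (Finset.disjoint_of_subset_right hU hPar.dis)
  have hprod : (∏ p ∈ T, p) * ∏ q ∈ U, q = ∏ p ∈ T ∪ U, p := (Finset.prod_union hdis).symm
  have hTUp : ∀ p ∈ T ∪ U, p.Prime := by
    intro p hp
    rcases Finset.mem_union.1 hp with h | h
    · exact hTp p h
    · exact hUp p h
  refine ⟨?_, ?_, ?_, ?_⟩
  · calc Y ^ 319 ≤ ∏ q ∈ U, q := hUge
      _ = 1 * ∏ q ∈ U, q := (one_mul _).symm
      _ ≤ _ := Nat.mul_le_mul_right _ hTpos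
  · calc (∏ p ∈ T, p) * ∏ q ∈ U, q ≤ Y ^ 30 * Y ^ 330 := Nat.mul_le_mul hTle hUle
      _ = Y ^ 360 := by rw [← pow_add]
  · rw [hprod]
    refine Finset.squarefree_prod_of_pairwise_isCoprime ?_ fun p hp => (hTUp p hp).squarefree
    intro p hp p' hp' hne
    exact Nat.coprime_iff_isRelPrime.1 ((Nat.coprime_primes (hTUp p hp) (hTUp p' hp')).2 hne)
  · intro p hp hdvd
    rw [hprod] at hdvd
    obtain ⟨p', hp', hdvd'⟩ := (hp.prime.dvd_finsetProd_iff _).1 hdvd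
    have h1 : p = p' := (Nat.prime_dvd_prime_iff_eq hp (hTUp p' hp')).1 hdvd'
    subst h1
    exact Finset.union_subset_union hT hU hp'

end Pool.Agent.J4H93.HN
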