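import Mathlib
import Pool.Agent.J4H93.HN.Stm

set_option autoImplicit false

namespace Pool.Agent.J4H93.HN

open Finset Filter Topology

theorem top_of_HA (hHA : S_HA) (k : ℕ) (C : Fin k → Set ℕ) (hC : ∀ n : ℕ, 0 < n → ∃ i, n ∈ C i) :
    ∃ i, ∀ q : ℚ, 0 < q → ∃ F : Finset ℕ, F.Nonempty ∧ (∀ a ∈ F, 0 < a ∧ a ∈ C i) ∧
      ∑ a ∈ F, (1 : ℚ) / a = q := by
  have h1 : ∀ n : ℕ, ∃ i : Fin k, 0 < n → n ∈ C i := by
    intro n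
    rcases Nat.eq_zero_or_pos n with h | h
    · obtain ⟨i, -⟩ := hC 1 one_pos
      exact ⟨i, fun h' => by omega⟩
    · obtain ⟨i, hi⟩ := hC n h
      exact ⟨i, fun _ => hi⟩
  choose c hc using h1
  obtain ⟨i, hi⟩ := hHA k c
  refine ⟨i, fun q hq => ?_⟩
  obtain ⟨F, hF, hFi, hs⟩ := hi q hq
  refine ⟨F, hF, fun a ha => ?_, hs⟩
  obtain ⟨h2, h3⟩ := hFi a ha
  refine ⟨h2, ?_⟩
  rw [← h3]
  exact hc a h2

end Pool.Agent.J4H93.HN
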