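import Mathlib
import Pool.Agent.J4H93.HN.Stm
import Pool.Agent.J4H93.HN.Cr
import Pool.Agent.J4H93.HN.Ha
import Pool.Agent.J4H93.HN.Pru
import Pool.Agent.J4H93.HN.Sz
import Pool.Agent.J4H93.HN.Top
import Pool.Agent.J4H5.HN.Light
import Pool.Agent.J4H51.HN.Poor
import Pool.Agent.J4H66.HN.Rich
import Pool.Agent.J4H66.HN.Cmb
import Pool.Agent.J4H70.HN.Few
import Pool.Agent.J4H70.HN.Ss
import Pool.Agent.J4H74.HN.Psi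
import Pool.Agent.J4H4.HN.Me
import Pool.Agent.J4H97.HN.E1
import Pool.Agent.J4H98.HN.Num

set_option autoImplicit false

namespace Pool.Agent.J4H93.HN

/-- the combinatorial half -/
theorem cmb : S_CMB :=
  Pool.Agent.J4H66.HN.t_CMB t_SZ
    (Pool.Agent.J4H5.HN.t_LIGHT Pool.Agent.J4H97.HN.t_E1 Pool.Agent.J4H97.HN.t_E3
      Pool.Agent.J4H70.HN.t_DX (Pool.Agent.J4H5.HN.t_CNT Pool.Agent.J4H97.HN.t_E1))
    (Pool.Agent.J4H51.HN.t_POOR Pool.Agent.J4H97.HN.t_E1 Pool.Agent.J4H70.HN.t_MD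
      Pool.Agent.J4H51.HN.t_HEAVY)
    Pool.Agent.J4H66.HN.t_RICH

/-- the parameters exist -/
theorem num : S_NUM :=
  Pool.Agent.J4H98.HN.t_NUM Pool.Agent.J4H97.HN.t_E1 Pool.Agent.J4H97.HN.t_E2
    Pool.Agent.J4H70.HN.t_SR Pool.Agent.J4H74.HN.t_PSI Pool.Agent.J4H4.HN.t_ME0
    Pool.Agent.J4H4.HN.t_ME1 (Pool.Agent.J4H70.HN.t_FEW Pool.Agent.J4H4.HN.t_ME0)

theorem ha_of_CIR (hCIR : S_CIR) : S_HA :=
  t_HA (t_CR num t_SZ Pool.Agent.J4H70.HN.t_SR Pool.Agent.J4H97.HN.t_E1 cmb t_PRU hCIR)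

theorem main_of_CIR (hCIR : S_CIR) (k : ℕ) (C : Fin k → Set ℕ)
    (hC : ∀ n : ℕ, 0 < n → ∃ i, n ∈ C i) :
    ∃ i, ∀ q : ℚ, 0 < q → ∃ F : Finset ℕ, F.Nonempty ∧ (∀ a ∈ F, 0 < a ∧ a ∈ C i) ∧
      ∑ a ∈ F, (1 : ℚ) / a = q :=
  top_of_HA (ha_of_CIR hCIR) k C hC

end Pool.Agent.J4H93.HN
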