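import Mathlib
import Pool.Agent.J4H93.HN.Pre
import Pool.Agent.J4H75.HN.Mid
import Pool.Agent.J4H75.HN.Cir
import Pool.Agent.J4H68.HN.Sml
import Pool.Agent.J4H68.HN.Tail
import Pool.Agent.J4H98.HN.Fou

set_option autoImplicit false

namespace Pool.Agent.J4H93.HN

/-- the analytic half -/
theorem cir : S_CIR :=
  Pool.Agent.J4H75.HN.t_CIR Pool.Agent.J4H98.HN.t_FOU Pool.Agent.J4H68.HN.t_TAIL
    (Pool.Agent.J4H75.HN.t_MID Pool.Agent.J4H75.HN.t_FAC)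
    (Pool.Agent.J4H75.HN.t_BAD Pool.Agent.J4H75.HN.t_FAC) Pool.Agent.J4H68.HN.t_SML

/-- Hahn's question -/
theorem main (k : ℕ) (C : Fin k → Set ℕ) (hC : ∀ n : ℕ, 0 < n → ∃ i, n ∈ C i) :
    ∃ i, ∀ q : ℚ, 0 < q → ∃ F : Finset ℕ, F.Nonempty ∧ (∀ a ∈ F, 0 < a ∧ a ∈ C i) ∧
      ∑ a ∈ F, (1 : ℚ) / a = q :=
  main_of_CIR cir k C hC

end Pool.Agent.J4H93.HN
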